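import Pool.Agent.TH347.KS.Main

/-!
# The list edge colouring conjecture for regular graphs whose 1-factorizations are Kempe equivalent

Proof idea. In a `d`-regular graph a Kempe change does not change the product of the signs of a proper
edge colouring with `d` colours: if the colours `i` and `j` are exchanged on some edges, then they are
exchanged at both ends of each of the exchanged edges of colour `i`, so at an even number of vertices.
So all terms of the sum of Alon and Tarsi have the same sign, and it is plus or minus the number of
the 1-factorizations; with a `p`-group of automorphisms, modulo `p`, only the invariant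
1-factorizations count.
-/

set_option autoImplicit false

namespace Pool.Agent.Results.MP_2f9829_co.KempeClasses

/-- The list edge colouring conjecture for the single graph `G`, in the form of the frozen statement
`S07911`: for every `k`, the edges of `G` can be properly coloured with `k` colours if and only if `G` has
a proper edge colouring from every list assignment with lists of at least `k` colours. -/
def ListEdgeConjectureFor {V : Type} (G : SimpleGraph V) : Prop :=
  ∀ k : ℕ, G.lineGraph.Colorable k ↔
    ∀ L : G.edgeSet → Finset ℕ, (∀ e, k ≤ (L e).card) →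
      ∃ f : G.edgeSet → ℕ, (∀ e, f e ∈ L e) ∧
        ∀ e e', G.lineGraph.Adj e e' → f e ≠ f e'

/-- The conjecture holds for `G` and for all graphs isomorphic to a subgraph of `G` whose edges cannot
be properly coloured with `d - 1` colours. -/
def HoldsBelow {V : Type} (G : SimpleGraph V) (d : ℕ) : Prop :=
  ListEdgeConjectureFor G ∧
    ∀ (W : Type) (F : SimpleGraph W) (φ : W → V), Function.Injective φ →
      (∀ u v, F.Adj u v → G.Adj (φ u) (φ v)) → ¬ F.lineGraph.Colorable (d - 1) →
      ListEdgeConjectureFor F

/-- The proper edge colouring `y` arises from the proper edge colouring `x` by exchanging two colours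
`i` and `j` on some edges. -/
def KempeChange {V : Type} (G : SimpleGraph V) {d : ℕ} (x y : G.lineGraph.Coloring (Fin d)) :
    Prop := ∃ i j : Fin d, ∀ e, y e = x e ∨ y e = Equiv.swap i j (x e)

/-- The image of the edge `e` of `G` under the automorphism `a`. -/
def moveEdge {V P : Type} [Group P] [MulAction P V] (G : SimpleGraph V)
    (hG : ∀ (a : P) (u v : V), G.Adj (a • u) (a • v) ↔ G.Adj u v) (a : P) (e : G.edgeSet) :
    G.edgeSet :=
  ⟨Sym2.map (fun v => a • v) e, by
    obtain ⟨e, he⟩ := e
    induction e using Sym2.ind with
    | _ u v => exact (hG a u v).2 he⟩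

/-- The colouring `x` is invariant under `P` up to permutations of the colours: the 1-factorization
given by `x` is invariant under `P`. -/
def Invariant {V P : Type} [Group P] [MulAction P V] (G : SimpleGraph V)
    (hG : ∀ (a : P) (u v : V), G.Adj (a • u) (a • v) ↔ G.Adj u v) {d : ℕ}
    (x : G.lineGraph.Coloring (Fin d)) : Prop :=
  ∀ a : P, ∃ σ : Equiv.Perm (Fin d), ∀ e, x (moveEdge G hG a e) = σ (x e)

/-- The 1-factorizations invariant under `P`, as partitions of the set of the edges. -/
def invariantFactorizations {V P : Type} [Group P] [MulAction P V] (G : SimpleGraph V)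
    (hG : ∀ (a : P) (u v : V), G.Adj (a • u) (a • v) ↔ G.Adj u v) (d : ℕ) :
    Set (Setoid G.edgeSet) :=
  {r | ∃ x : G.lineGraph.Coloring (Fin d), Invariant G hG x ∧ r = Setoid.ker x}

lemma holdsBelow_of {V : Type} [Finite V] [Nonempty V] (G : SimpleGraph V) (d : ℕ) (hd : 1 ≤ d)
    (hdeg : ∀ v, (G.neighborSet v).ncard = d) (h : Pool.Agent.W426.LE.EL.EL G d) :
    HoldsBelow G d := by
  classical
  have := Fintype.ofFinite V
  have hsub : ∀ (W : Type) (F : SimpleGraph W) (φ : W → V), Function.Injective φ →
      (∀ u v, F.Adj u v → G.Adj (φ u) (φ v)) → ¬ F.lineGraph.Colorable (d - 1) →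
      ListEdgeConjectureFor F := fun W F φ hφ hF hc k =>
    Pool.Agent.W426.LE.EL.lec F d (Pool.Agent.W426.LE.EL.mono F G φ hφ hF d h) hc k
  refine ⟨hsub V G id Function.injective_id (fun u v h => h) ?_, hsub⟩
  refine Pool.Agent.W426.LE.EL.deg G d hd (Classical.arbitrary V) ?_
  rw [← hdeg (Classical.arbitrary V), ← SimpleGraph.card_neighborSet_eq_degree,
    Set.ncard_eq_toFinset_card', Set.toFinset_card]

/-- Let `G` be a finite `d`-regular graph, `d ≥ 1`.

(1) If the edges of `G` can be properly coloured with `d` colours and all these colourings are Kempe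
equivalent, then the list edge colouring conjecture holds for `G` and for all graphs isomorphic to a
subgraph of `G` whose edges cannot be properly coloured with `d - 1` colours.

(2) The same if a finite `p`-group `P` acts by automorphisms on `G`, the number of the
1-factorizations invariant under `P` is not divisible by the prime `p`, and the colourings which
belong to them are Kempe equivalent. -/
theorem result (V : Type) [Finite V] [Nonempty V] (G : SimpleGraph V) (d : ℕ) (hd : 1 ≤ d)
    (hdeg : ∀ v, (G.neighborSet v).ncard = d) :
    (G.lineGraph.Colorable d →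
      (∀ x y : G.lineGraph.Coloring (Fin d), Relation.EqvGen (KempeChange G) x y) →
      HoldsBelow G d) ∧
    ∀ (P : Type) [Group P] [Finite P] [MulAction P V]
      (hG : ∀ (a : P) (u v : V), G.Adj (a • u) (a • v) ↔ G.Adj u v) (p : ℕ), p.Prime →
      IsPGroup p P → ¬ p ∣ (invariantFactorizations G hG d).ncard →
      (∀ x y : G.lineGraph.Coloring (Fin d), Invariant G hG x → Invariant G hG y →
        Relation.EqvGen (KempeChange G) x y) →
      HoldsBelow G d := by
  refine ⟨fun hc hK => holdsBelow_of G d hd hdeg ?_, fun P _ _ _ hG p hp hP hN hK =>
    holdsBelow_of G d hd hdeg ?_⟩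
  · exact Pool.Agent.TH347.KS.EL_kempe_all G hdeg hc hK
  · have := Fact.mk hp
    exact Pool.Agent.TH347.KS.EL_kempe G hG p hP hdeg hK hN

end Pool.Agent.Results.MP_2f9829_co.KempeClasses
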