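import Pool.Agent.TH347.KS.Odd

/-!
# The list edge colouring conjecture for cubic graphs with an odd number of Hamiltonian cycles

Proof idea. By the criterion of Alon and Tarsi (starting library) it is enough that the sum of the
products of the signs over the proper edge colourings with three colours that are normalised at a
vertex `v0` is not zero; all products are `1` or `-1`, so it is enough that the number `N` of these
colourings is odd. On the pairs `(x, i)` of a normalised colouring `x` and a colour `i` for which the
graph of the edges of the two other colours is not connected, the exchange of these two colours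
outside of the component of `v0` is an involution without fixed points. The other pairs correspond to
the Hamiltonian cycles; the alternating colouring of a Hamiltonian cycle comes from linear algebra
modulo two. So `3 N` and the number of the Hamiltonian cycles have the same parity.
-/

set_option autoImplicit false

namespace Pool.Agent.Results.MP_2f9829_co.OddHamiltonian

/-- The list edge colouring conjecture for the single graph `G`, in the form of the frozen statement
`S07911`: for every `k`, the edges of `G` can be properly coloured with `k` colours if and only if `G` has
a proper edge colouring from every list assignment with lists of at least `k` colours. -/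
def ListEdgeConjectureFor {V : Type} (G : SimpleGraph V) : Prop :=
  ∀ k : ℕ, G.lineGraph.Colorable k ↔
    ∀ L : G.edgeSet → Finset ℕ, (∀ e, k ≤ (L e).card) →
      ∃ f : G.edgeSet → ℕ, (∀ e, f e ∈ L e) ∧
        ∀ e e', G.lineGraph.Adj e e' → f e ≠ f e'

/-- `H` is a Hamiltonian cycle of `G`: a connected subgraph on all vertices in which all degrees are
two. -/
def IsHamiltonianCycle {V : Type} (G H : SimpleGraph V) : Prop :=
  H ≤ G ∧ H.Connected ∧ ∀ v, (H.neighborSet v).ncard = 2

/-- Let `G` be a finite cubic graph with an odd number of Hamiltonian cycles. Then the list edge
colouring conjecture holds for `G`, and for every graph `F` isomorphic to a subgraph of `G` whose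
edges cannot be properly coloured with two colours. -/
theorem result (V : Type) [Finite V] (G : SimpleGraph V)
    (hG : ∀ v, (G.neighborSet v).ncard = 3)
    (hodd : Odd {H : SimpleGraph V | IsHamiltonianCycle G H}.ncard) :
    ListEdgeConjectureFor G ∧
    ∀ (W : Type) (F : SimpleGraph W) (φ : W → V), Function.Injective φ →
      (∀ u v, F.Adj u v → G.Adj (φ u) (φ v)) → ¬ F.lineGraph.Colorable 2 →
      ListEdgeConjectureFor F := by
  classical
  have := Fintype.ofFinite V
  have hne : Nonempty V := by
    by_contra h
    have h5 : {H : SimpleGraph V | IsHamiltonianCycle G H} = ∅ := by
      ext H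
      simp only [Set.mem_setOf_eq, Set.mem_empty_iff_false, iff_false]
      exact fun hH => h hH.2.1.nonempty
    rw [h5, Set.ncard_empty] at hodd
    exact absurd hodd (by decide)
  have hEL : Pool.Agent.W426.LE.EL.EL G 3 := Pool.Agent.TH347.KS.EL_odd G hG hodd
  have hsub : ∀ (W : Type) (F : SimpleGraph W) (φ : W → V), Function.Injective φ →
      (∀ u v, F.Adj u v → G.Adj (φ u) (φ v)) → ¬ F.lineGraph.Colorable 2 →
      ListEdgeConjectureFor F := fun W F φ hφ hF hc k =>
    Pool.Agent.W426.LE.EL.lec F 3 (Pool.Agent.W426.LE.EL.mono F G φ hφ hF 3 hEL) hc k
  refine ⟨hsub V G id Function.injective_id (fun u v h => h) ?_, hsub⟩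
  refine Pool.Agent.W426.LE.EL.deg G 3 (by norm_num) (Classical.arbitrary V) ?_
  rw [← hG (Classical.arbitrary V), ← SimpleGraph.card_neighborSet_eq_degree,
    Set.ncard_eq_toFinset_card', Set.toFinset_card]

end Pool.Agent.Results.MP_2f9829_co.OddHamiltonian
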